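import Pool.Agent.UL3.Stmts

/-!
Row AVD of the squad UL3: a set of small area misses a translate of the lattice.
-/

set_option autoImplicit false

namespace Pool.Agent.UL3.H39

open MeasureTheory Set Pool.Agent.UL3
open scoped Pointwise

/-- the integer lattice has the fundamental domain `[0,1) × [0,1)` -/
lemma std_dom : ZSpan.fundamentalDomain (Module.Basis.finTwoProd ℝ) =
    Ico (0 : ℝ) 1 ×ˢ Ico (0 : ℝ) 1 := by
  ext x
  simp [ZSpan.mem_fundamentalDomain, Fin.forall_fin_two]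

lemma std_vol : (volume : Measure (ℝ × ℝ)) (ZSpan.fundamentalDomain (Module.Basis.finTwoProd ℝ)) =
    1 := by
  rw [std_dom, Measure.volume_eq_prod, Measure.prod_prod]
  simp

lemma avoid_std (S : Set (ℝ × ℝ)) (hv : (volume : Measure (ℝ × ℝ)) S < 1) :
    ∃ z : ℝ × ℝ, ∀ m n : ℤ, z + ((m : ℝ), (n : ℝ)) ∉ S := by
  by_contra hcon
  push Not at hcon
  haveI : Countable (Submodule.span ℤ (Set.range (Module.Basis.finTwoProd ℝ))).toAddSubgroup :=
    inferInstanceAs (Countable (Submodule.span ℤ (Set.range (Module.Basis.finTwoProd ℝ))))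
  have hF := ZSpan.isAddFundamentalDomain' (Module.Basis.finTwoProd ℝ) (volume : Measure (ℝ × ℝ))
  set F := ZSpan.fundamentalDomain (Module.Basis.finTwoProd ℝ) with hFdef
  have h1 : (volume : Measure (ℝ × ℝ)) S =
      ∑' g : (Submodule.span ℤ (Set.range (Module.Basis.finTwoProd ℝ))).toAddSubgroup,
        (volume : Measure (ℝ × ℝ)) ((g +ᵥ S) ∩ F) := hF.measure_eq_tsum S
  have h2 : F ⊆ ⋃ g : (Submodule.span ℤ (Set.range (Module.Basis.finTwoProd ℝ))).toAddSubgroup,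
      ((g +ᵥ S) ∩ F) := by
    intro z hz
    obtain ⟨m, n, hmn⟩ := hcon z
    have hmem : -((m : ℝ), (n : ℝ)) ∈ Submodule.span ℤ (Set.range (Module.Basis.finTwoProd ℝ)) := by
      have e : -((m : ℝ), (n : ℝ)) = (-m) • (Module.Basis.finTwoProd ℝ 0) +
          (-n) • (Module.Basis.finTwoProd ℝ 1) := by
        ext <;> simp
      rw [e]
      exact Submodule.add_mem _ (Submodule.smul_mem _ _ (Submodule.subset_span ⟨0, rfl⟩))
        (Submodule.smul_mem _ _ (Submodule.subset_span ⟨1, rfl⟩))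
    rw [Set.mem_iUnion]
    refine ⟨⟨_, hmem⟩, ?_, hz⟩
    rw [Set.mem_vadd_set]
    refine ⟨_, hmn, ?_⟩
    show -((m : ℝ), (n : ℝ)) + (z + ((m : ℝ), (n : ℝ))) = z
    abel
  have h3 : (volume : Measure (ℝ × ℝ)) F ≤ (volume : Measure (ℝ × ℝ)) S := by
    rw [h1]
    exact (measure_mono h2).trans (measure_iUnion_le _)
  rw [std_vol] at h3
  exact absurd hv (not_lt.mpr h3)

/-- the linear map `(s, t) ↦ s a + t b` -/
noncomputable def lin (a b : ℝ × ℝ) : (ℝ × ℝ) →ₗ[ℝ] (ℝ × ℝ) :=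
  (LinearMap.fst ℝ ℝ ℝ).smulRight a + (LinearMap.snd ℝ ℝ ℝ).smulRight b

lemma lin_apply (a b p : ℝ × ℝ) : lin a b p = p.1 • a + p.2 • b := rfl

lemma lin_det (a b : ℝ × ℝ) : LinearMap.det (lin a b) = cr a b := by
  rw [← LinearMap.det_toMatrix (Module.Basis.finTwoProd ℝ), Matrix.det_fin_two]
  simp [LinearMap.toMatrix_apply, lin_apply, cr]
  ring

theorem avd : AvdStmt := by
  intro a b S hab hS hv
  have hdet : LinearMap.det (lin a b) ≠ 0 := by
    rw [lin_det]
    exact hab.ne'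
  have hpre := Measure.addHaar_preimage_linearMap (volume : Measure (ℝ × ℝ)) hdet S
  have hlt : (volume : Measure (ℝ × ℝ)) ((lin a b) ⁻¹' S) < 1 := by
    rw [hpre, lin_det, abs_of_pos (inv_pos.mpr hab)]
    have hc : ENNReal.ofReal (cr a b)⁻¹ * ENNReal.ofReal (cr a b) = 1 := by
      rw [← ENNReal.ofReal_mul (inv_pos.mpr hab).le, inv_mul_cancel₀ hab.ne', ENNReal.ofReal_one]
    rw [← hc]
    refine ENNReal.mul_lt_mul_right ?_ ?_ hv
    · simpa using hab
    · exact ENNReal.ofReal_ne_top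
  obtain ⟨z, hz⟩ := avoid_std _ hlt
  refine ⟨lin a b z, fun m n h => hz m n ?_⟩
  show lin a b (z + ((m : ℝ), (n : ℝ))) ∈ S
  rw [map_add, lin_apply a b ((m : ℝ), (n : ℝ)), ← add_assoc]
  exact h

end Pool.Agent.UL3.H39
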