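import Pool.Agent.UL3.Stmts

/-!
Row AVG of the squad UL3: the average over the directions.
-/

set_option autoImplicit false

namespace Pool.Agent.UL3.H39

open MeasureTheory Set Pool.Agent.UL3

/-- the pairs with small scalar product -/
def SS (ε : ℝ) : Set (E3 × E3) := {p | |inner ℝ p.2 p.1| ≤ ε}

lemma SS_meas (ε : ℝ) : MeasurableSet (SS ε) := by
  have h : IsClosed (SS ε) := by
    apply isClosed_le
    · exact (continuous_snd.inner continuous_fst).abs
    · exact continuous_const
  exact h.measurableSet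

/-- the indicator function -/
noncomputable def ff (ε : ℝ) (p : E3 × E3) : ℝ := (SS ε).indicator (fun _ => (1 : ℝ)) p

lemma int_x (ε : ℝ) (K : Set E3) (u : E3) :
    ∫ x in K, ff ε (u, x) = V {x | x ∈ K ∧ |inner ℝ x u| ≤ ε} := by
  have hA : MeasurableSet {x : E3 | |inner ℝ x u| ≤ ε} := by
    have h : IsClosed {x : E3 | |inner ℝ x u| ≤ ε} := by
      apply isClosed_le
      · exact (continuous_id.inner continuous_const).abs
      · exact continuous_const
    exact h.measurableSet
  have e : (fun x => ff ε (u, x)) = {x : E3 | |inner ℝ x u| ≤ ε}.indicator (fun _ => (1 : ℝ)) := by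
    funext x
    unfold ff SS
    simp only [indicator, mem_setOf_eq]
  rw [e, integral_indicator_const _ hA, measureReal_restrict_apply hA, smul_eq_mul, mul_one]
  unfold V
  congr 1
  ext x
  simp [and_comm]

lemma int_u (ε : ℝ) (K : Set E3) (x : E3) :
    ∫ u in K, ff ε (u, x) = V {u | u ∈ K ∧ |inner ℝ x u| ≤ ε} := by
  have hA : MeasurableSet {u : E3 | |inner ℝ x u| ≤ ε} := by
    have h : IsClosed {u : E3 | |inner ℝ x u| ≤ ε} := by
      apply isClosed_le
      · exact (continuous_const.inner continuous_id).abs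
      · exact continuous_const
    exact h.measurableSet
  have e : (fun u => ff ε (u, x)) = {u : E3 | |inner ℝ x u| ≤ ε}.indicator (fun _ => (1 : ℝ)) := by
    funext u
    unfold ff SS
    simp only [indicator, mem_setOf_eq]
  rw [e, integral_indicator_const _ hA, measureReal_restrict_apply hA, smul_eq_mul, mul_one]
  unfold V
  congr 1
  ext x
  simp [and_comm]

lemma lower {K : Set E3}
    (h : ∀ u : E3, ‖u‖ = 1 → ∀ δ : ℝ, 0 ≤ δ → 2 * δ * (1 - δ / (197 / 100)) * (353 / 1000) * V K ≤
        V {x | x ∈ K ∧ |inner ℝ x u| ≤ δ}) {ε : ℝ} (hε : 0 ≤ ε) (u : E3) :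
    2 * ε * (353 / 1000) * V K * (‖u‖⁻¹ - ε / (197 / 100) * (‖u‖ ^ 2)⁻¹) ≤
      V {x | x ∈ K ∧ |inner ℝ x u| ≤ ε} := by
  rcases eq_or_ne u 0 with rfl | hu
  · simp only [norm_zero, inv_zero, ne_eq, OfNat.ofNat_ne_zero, not_false_eq_true, zero_pow,
      mul_zero, sub_zero]
    exact measureReal_nonneg
  · have hn : 0 < ‖u‖ := norm_pos_iff.mpr hu
    have h1 := h (‖u‖⁻¹ • u) (by
      rw [norm_smul, norm_inv, norm_norm, inv_mul_cancel₀ hn.ne']) (ε / ‖u‖) (by positivity)
    have e : {x : E3 | x ∈ K ∧ |inner ℝ x (‖u‖⁻¹ • u)| ≤ ε / ‖u‖} =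
        {x : E3 | x ∈ K ∧ |inner ℝ x u| ≤ ε} := by
      ext x
      simp only [mem_setOf_eq]
      refine and_congr_right fun _ => ?_
      rw [inner_smul_right, abs_mul, abs_inv, abs_norm, div_eq_inv_mul]
      exact mul_le_mul_iff_right₀ (inv_pos.mpr hn)
    rw [e] at h1
    refine le_trans (le_of_eq ?_) h1
    field_simp

theorem avg (hslb : SlbStmt) (hbal : BalStmt) : AvgStmt := by
  intro K hK hlow hint hle
  obtain ⟨hb1, hb2, hb3, hb4⟩ := hbal
  have hV : 0 < V K := by
    unfold V
    rw [measureReal_def, ENNReal.toReal_pos_iff]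
    refine ⟨lt_of_lt_of_le (isOpen_interior.measure_pos volume hK.int)
      (measure_mono interior_subset), hK.cpt.measure_lt_top⟩
  set B : Set E3 := Metric.closedBall 0 1 with hB
  haveI : IsFiniteMeasure ((volume : Measure E3).restrict K) :=
    ⟨by rw [Measure.restrict_apply_univ]; exact hK.cpt.measure_lt_top⟩
  haveI : IsFiniteMeasure ((volume : Measure E3).restrict B) :=
    ⟨by rw [Measure.restrict_apply_univ]; exact (isCompact_closedBall _ _).measure_lt_top⟩
  have hff : Integrable (ff (1 / 100))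
      (((volume : Measure E3).restrict B).prod ((volume : Measure E3).restrict K)) :=
    (integrable_const (1 : ℝ)).indicator (SS_meas _)
  have hswap : ∫ u in B, ∫ x in K, ff (1 / 100) (u, x) =
      ∫ x in K, ∫ u in B, ff (1 / 100) (u, x) :=
    integral_integral_swap (f := fun u x => ff (1 / 100) (u, x)) hff
  -- upper bound
  have hup : ∫ x in K, ∫ u in B, ff (1 / 100) (u, x) ≤
      2 * Real.pi * (1 / 100) * (69765 / 100000 * V K) := by
    have h1 : ∫ x in K, ∫ u in B, ff (1 / 100) (u, x) ≤
        ∫ x in K, 2 * Real.pi * (1 / 100) * ‖x‖⁻¹ := by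
      refine integral_mono_ae hff.integral_prod_right (hint.const_mul _) ?_
      have h0 : ∀ᵐ x ∂(volume : Measure E3), x ≠ 0 := by
        rw [ae_iff]
        simp
      filter_upwards [ae_restrict_of_ae h0] with x hx
      rw [int_u]
      refine (hslb x (1 / 100) hx (by norm_num)).trans (le_of_eq ?_)
      rw [div_eq_mul_inv]
    rw [integral_const_mul] at h1
    refine h1.trans ?_
    gcongr
  -- lower bound
  have hlo : 2 * (1 / 100) * (353 / 1000) * V K *
      (2 * Real.pi - (1 / 100) / (197 / 100) * (4 * Real.pi)) ≤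
      ∫ u in B, ∫ x in K, ff (1 / 100) (u, x) := by
    have h1 : ∫ u in B, 2 * (1 / 100) * (353 / 1000) * V K *
        (‖u‖⁻¹ - (1 / 100) / (197 / 100) * (‖u‖ ^ 2)⁻¹) ≤
        ∫ u in B, ∫ x in K, ff (1 / 100) (u, x) := by
      refine integral_mono ((hb1.sub (hb2.const_mul _)).const_mul _) hff.integral_prod_left ?_
      intro u
      show _ ≤ ∫ x in K, ff (1 / 100) (u, x)
      rw [int_x]
      exact lower hlow (by norm_num) u
    rw [integral_const_mul, integral_sub hb1 (hb2.const_mul _), integral_const_mul, hb3, hb4] at h1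
    exact h1
  rw [hswap] at hlo
  have hfin := hlo.trans hup
  have hpv : 0 < Real.pi * V K := mul_pos Real.pi_pos hV
  nlinarith [hfin, hpv]

end Pool.Agent.UL3.H39
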